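import Mathlib

/-!
# OD, module CNT: weights of sets of degrees
-/

set_option autoImplicit false
set_option linter.all false

open Finset

namespace Pool.Agent.D0H21.OD

/-- the weight of a set -/
noncomputable def W (B : Finset ℕ) : ℝ := ∏ n ∈ B, (1 / (n : ℝ))

/-- the error of a set of degrees -/
noncomputable def wt0 (Q C : ℝ) (A : Finset ℕ) : ℝ :=
  ∑ n ∈ A, (2 : ℝ) ^ (A.filter fun m => m ≤ n).card * (C * (n : ℝ) ^ 3 / Q ^ n)

theorem W_nonneg (B : Finset ℕ) : 0 ≤ W B := Finset.prod_nonneg fun n _ => by positivity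

theorem sum_W (I : Finset ℕ) : ∑ B ∈ I.powerset, W B = ∏ n ∈ I, (1 + 1 / (n : ℝ)) :=
  (Finset.prod_one_add I).symm

theorem tele (a b : ℕ) (ha : 1 ≤ a) (hab : a ≤ b) : ∏ n ∈ Ico a b, (1 + 1 / (n : ℝ)) = b / a := by
  have ha0 : (a : ℝ) ≠ 0 := by exact_mod_cast (by omega : a ≠ 0)
  induction b, hab using Nat.le_induction with
  | base => rw [Ico_self, prod_empty, div_self ha0]
  | succ b hb ih =>
    have hb0 : (b : ℝ) ≠ 0 := by exact_mod_cast (by omega : b ≠ 0)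
    rw [Finset.prod_Ico_succ_top hb, ih]
    push_cast
    field_simp

theorem tele2 (a b : ℕ) (ha : 1 ≤ a) (hab : a ≤ b) :
    (∏ n ∈ Ico a b, (1 + 1 / (2 * (n : ℝ)))) ^ 2 ≤ (b - 1 / 4) / (a - 1 / 4) := by
  have ha0 : (1 : ℝ) ≤ a := by exact_mod_cast ha
  have ha1 : (a : ℝ) - 1 / 4 ≠ 0 := by
    intro h
    linarith
  induction b, hab using Nat.le_induction with
  | base => rw [Ico_self, prod_empty, div_self ha1]; norm_num
  | succ b hb ih =>
    have hb0 : (1 : ℝ) ≤ b := by exact_mod_cast ha.trans hb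
    rw [Finset.prod_Ico_succ_top hb, mul_pow]
    have h1 : (1 + 1 / (2 * (b : ℝ))) ^ 2 ≤ (b + 3 / 4) / (b - 1 / 4) := by
      rw [le_div_iff₀ (by linarith)]
      have e : (1 + 1 / (2 * (b : ℝ))) ^ 2 = (2 * b + 1) ^ 2 / (4 * (b : ℝ) ^ 2) := by
        field_simp
        ring
      rw [e, div_mul_eq_mul_div, div_le_iff₀ (by positivity)]
      nlinarith
    have h2 : 0 ≤ ((b : ℝ) - 1 / 4) / (a - 1 / 4) := div_nonneg (by linarith) (by linarith)
    calc (∏ n ∈ Ico a b, (1 + 1 / (2 * (n : ℝ)))) ^ 2 * (1 + 1 / (2 * (b : ℝ))) ^ 2 ≤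
        ((b - 1 / 4) / (a - 1 / 4)) * ((b + 3 / 4) / (b - 1 / 4)) := mul_le_mul ih h1 (by positivity) h2
      _ = (((b + 1 : ℕ) : ℝ) - 1 / 4) / (a - 1 / 4) := by
        have h3 : (b : ℝ) - 1 / 4 ≠ 0 := by
          intro h
          linarith
        have e1 : ((b + 1 : ℕ) : ℝ) - 1 / 4 = b + 3 / 4 := by
          push_cast
          ring
        rw [e1, div_mul_div_comm, mul_comm ((b : ℝ) - 1 / 4) (b + 3 / 4), mul_div_mul_right _ _ h3]

/-- sums over the subsets that contain `n` -/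
theorem sum_mem (I : Finset ℕ) (n : ℕ) (hn : n ∈ I) (f : ℕ → ℝ) :
    ∑ B ∈ I.powerset, (if n ∈ B then ∏ m ∈ B, f m else 0) = f n * ∏ m ∈ I.erase n, (1 + f m) := by
  have h1 : n ∉ I.erase n := Finset.notMem_erase n I
  conv_lhs => rw [← Finset.insert_erase hn]
  rw [Finset.sum_powerset_insert h1, Finset.prod_one_add, Finset.mul_sum]
  have h2 : ∑ t ∈ (I.erase n).powerset, (if n ∈ t then ∏ m ∈ t, f m else 0) = 0 := by
    refine Finset.sum_eq_zero fun t ht => ?_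
    rw [if_neg]
    intro h
    exact h1 (Finset.mem_powerset.1 ht h)
  rw [h2, zero_add]
  refine Finset.sum_congr rfl fun t ht => ?_
  rw [if_pos (Finset.mem_insert_self _ _), Finset.prod_insert]
  intro h
  exact h1 (Finset.mem_powerset.1 ht h)

theorem markov (I : Finset ℕ) (g : Finset ℕ → ℝ) (t M : ℝ) (hg : ∀ B, 0 ≤ g B) (ht : 0 < t)
    (h : ∑ B ∈ I.powerset, W B * g B ≤ M) :
    ∑ B ∈ I.powerset, (if t < g B then W B else 0) ≤ M / t := by
  rw [le_div_iff₀ ht, Finset.sum_mul]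
  refine le_trans (Finset.sum_le_sum fun B _ => ?_) h
  have hW := W_nonneg B
  split_ifs with h1
  · exact mul_le_mul_of_nonneg_left h1.le hW
  · rw [zero_mul]
    exact mul_nonneg hW (hg B)

theorem bad1 (n₀ y : ℕ) (hn₀ : 1 ≤ n₀) :
    ∑ B ∈ (Ico n₀ (y + 1)).powerset, W B * ((∑ n ∈ B, n : ℕ) : ℝ) ≤
      y * ∏ n ∈ Ico n₀ (y + 1), (1 + 1 / (n : ℝ)) := by
  obtain ⟨I, hI⟩ : ∃ I, I = Ico n₀ (y + 1) := ⟨_, rfl⟩
  rw [← hI]
  have hI1 : ∀ n ∈ I, 1 ≤ n := fun n hn => by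
    rw [hI, mem_Ico] at hn
    omega
  have h1 : ∑ B ∈ I.powerset, W B * ((∑ n ∈ B, n : ℕ) : ℝ) =
      ∑ n ∈ I, (n : ℝ) * ∑ B ∈ I.powerset, (if n ∈ B then ∏ m ∈ B, (1 / (m : ℝ)) else 0) := by
    simp_rw [Finset.mul_sum]
    rw [Finset.sum_comm]
    refine Finset.sum_congr rfl fun B hB => ?_
    rw [Finset.mem_powerset] at hB
    push_cast
    rw [Finset.mul_sum, ← Finset.sum_filter_add_sum_filter_not I fun n => n ∈ B]
    have h2 : ∑ n ∈ I.filter (fun n => ¬ n ∈ B), (n : ℝ) * (if n ∈ B then ∏ m ∈ B, (1 / (m : ℝ)) else 0) = 0 := by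
      refine Finset.sum_eq_zero fun n hn => ?_
      rw [if_neg (mem_filter.1 hn).2, mul_zero]
    rw [h2, add_zero]
    have h3 : I.filter (fun n => n ∈ B) = B := by
      ext n
      rw [mem_filter]
      exact ⟨fun h => h.2, fun h => ⟨hB h, h⟩⟩
    rw [h3]
    refine Finset.sum_congr rfl fun n hn => ?_
    rw [if_pos hn]
    unfold W
    ring
  rw [h1]
  have h4 : ∀ n ∈ I, (n : ℝ) * ∑ B ∈ I.powerset, (if n ∈ B then ∏ m ∈ B, (1 / (m : ℝ)) else 0) ≤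
      ∏ n ∈ I, (1 + 1 / (n : ℝ)) := by
    intro n hn
    have hn0 : (n : ℝ) ≠ 0 := by
      have := hI1 n hn
      exact_mod_cast (by omega : n ≠ 0)
    rw [sum_mem I n hn fun m => 1 / (m : ℝ), ← mul_assoc, mul_one_div_cancel hn0, one_mul]
    rw [← Finset.mul_prod_erase I _ hn]
    refine le_mul_of_one_le_left (Finset.prod_nonneg fun m _ => by positivity) ?_
    have : 0 ≤ 1 / (n : ℝ) := by positivity
    linarith
  refine (Finset.sum_le_sum h4).trans ?_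
  rw [Finset.sum_const, nsmul_eq_mul]
  refine mul_le_mul_of_nonneg_right ?_ (Finset.prod_nonneg fun m _ => by positivity)
  rw [hI, Nat.card_Ico]
  exact_mod_cast (by omega : y + 1 - n₀ ≤ y)

theorem bad2 (Q C : ℝ) (hQ : 1 < Q) (hC : 0 < C) (n₀ y : ℕ) (hn₀ : 1 ≤ n₀) :
    ∑ B ∈ (Ico n₀ (y + 1)).powerset, W B * wt0 Q C B ≤
      (∏ n ∈ Ico n₀ (y + 1), (1 + 1 / (n : ℝ))) * ∑ n ∈ Ico n₀ (y + 1), 2 * C * ((n : ℝ) ^ 3 / Q ^ n) := by
  obtain ⟨I, hI⟩ : ∃ I, I = Ico n₀ (y + 1) := ⟨_, rfl⟩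
  rw [← hI]
  have hQ0 : 0 < Q := by linarith
  have hI1 : ∀ n ∈ I, 1 ≤ n := fun n hn => by
    rw [hI, mem_Ico] at hn
    omega
  have h1 : ∑ B ∈ I.powerset, W B * wt0 Q C B =
      ∑ n ∈ I, (C * (n : ℝ) ^ 3 / Q ^ n) * ∑ B ∈ I.powerset,
        (if n ∈ B then ∏ m ∈ B, ((if m ≤ n then 2 else 1) * (1 / (m : ℝ))) else 0) := by
    simp_rw [Finset.mul_sum]
    rw [Finset.sum_comm]
    refine Finset.sum_congr rfl fun B hB => ?_
    rw [Finset.mem_powerset] at hB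
    unfold wt0
    rw [Finset.mul_sum, ← Finset.sum_filter_add_sum_filter_not I fun n => n ∈ B]
    have h2 : ∑ n ∈ I.filter (fun n => ¬ n ∈ B), (C * (n : ℝ) ^ 3 / Q ^ n) *
        (if n ∈ B then ∏ m ∈ B, ((if m ≤ n then 2 else 1) * (1 / (m : ℝ))) else 0) = 0 := by
      refine Finset.sum_eq_zero fun n hn => ?_
      rw [if_neg (mem_filter.1 hn).2, mul_zero]
    rw [h2, add_zero]
    have h3 : I.filter (fun n => n ∈ B) = B := by
      ext n
      rw [mem_filter]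
      exact ⟨fun h => h.2, fun h => ⟨hB h, h⟩⟩
    rw [h3]
    refine Finset.sum_congr rfl fun n hn => ?_
    rw [if_pos hn, Finset.prod_mul_distrib, Finset.prod_ite]
    simp only [Finset.prod_const, one_pow, mul_one]
    unfold W
    ring
  rw [h1, Finset.mul_sum]
  refine Finset.sum_le_sum fun n hn => ?_
  have hn1 := hI1 n hn
  have hn0 : (0 : ℝ) < n := by exact_mod_cast (by omega : 0 < n)
  rw [sum_mem I n hn fun m => (if m ≤ n then 2 else 1) * (1 / (m : ℝ))]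
  simp only [le_refl, if_true]
  have h5 : ∏ m ∈ I.erase n, (1 + (if m ≤ n then 2 else 1) * (1 / (m : ℝ))) ≤
      (∏ m ∈ I, (1 + 1 / (m : ℝ))) * n := by
    have h6 : ∏ m ∈ I.erase n, (1 + (if m ≤ n then 2 else 1) * (1 / (m : ℝ))) ≤
        ∏ m ∈ I.erase n, ((1 + 1 / (m : ℝ)) * (if m < n then 1 + 1 / (m : ℝ) else 1)) := by
      refine Finset.prod_le_prod (fun m _ => ?_) fun m hm => ?_
      · split_ifs <;> positivity
      · rw [mem_erase] at hm
        have hp : 0 ≤ 1 / (m : ℝ) := by positivity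
        rcases lt_trichotomy m n with h | h | h
        · rw [if_pos h.le, if_pos h]
          nlinarith
        · exact absurd h hm.1
        · rw [if_neg (by omega), if_neg (by omega)]
          linarith
    refine h6.trans ?_
    rw [Finset.prod_mul_distrib]
    have h7 : ∏ m ∈ I.erase n, (1 + 1 / (m : ℝ)) ≤ ∏ m ∈ I, (1 + 1 / (m : ℝ)) := by
      rw [← Finset.mul_prod_erase I _ hn]
      refine le_mul_of_one_le_left (Finset.prod_nonneg fun m _ => by positivity) ?_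
      have : 0 ≤ 1 / (n : ℝ) := by positivity
      linarith
    have h8 : ∏ m ∈ I.erase n, (if m < n then 1 + 1 / (m : ℝ) else 1) ≤ n := by
      rw [← Finset.prod_filter]
      have h9 : (I.erase n).filter (fun m => m < n) = Ico n₀ n := by
        ext m
        rw [mem_filter, mem_erase, hI, mem_Ico, mem_Ico]
        rw [hI, mem_Ico] at hn
        omega
      rw [h9, tele n₀ n hn₀ (by rw [hI, mem_Ico] at hn; omega)]
      rw [div_le_iff₀ (by exact_mod_cast (by omega : 0 < n₀))]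
      have : (1 : ℝ) ≤ n₀ := by exact_mod_cast hn₀
      nlinarith
    refine mul_le_mul h7 h8 (Finset.prod_nonneg fun m _ => ?_) (Finset.prod_nonneg fun m _ => by positivity)
    split_ifs <;> positivity
  have h10 : 0 ≤ ∏ m ∈ I, (1 + 1 / (m : ℝ)) := Finset.prod_nonneg fun m _ => by positivity
  calc C * (n : ℝ) ^ 3 / Q ^ n * (2 * (1 / (n : ℝ)) *
      ∏ m ∈ I.erase n, (1 + (if m ≤ n then 2 else 1) * (1 / (m : ℝ)))) ≤
      C * (n : ℝ) ^ 3 / Q ^ n * (2 * (1 / (n : ℝ)) * ((∏ m ∈ I, (1 + 1 / (m : ℝ))) * n)) := by gcongr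
    _ = _ := by
      field_simp

theorem bad3 (n₀ y : ℕ) (hn₀ : 1 ≤ n₀) (hy : n₀ ≤ y + 1) :
    (∑ B ∈ (Ico n₀ (y + 1)).powerset, W B * (1 / 2) ^ B.card) ^ 2 ≤
      2 * ∏ n ∈ Ico n₀ (y + 1), (1 + 1 / (n : ℝ)) := by
  have h1 : ∑ B ∈ (Ico n₀ (y + 1)).powerset, W B * (1 / 2) ^ B.card =
      ∏ n ∈ Ico n₀ (y + 1), (1 + 1 / (2 * (n : ℝ))) := by
    rw [Finset.prod_one_add]
    refine Finset.sum_congr rfl fun B _ => ?_
    unfold W
    rw [← Finset.prod_const, ← Finset.prod_mul_distrib]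
    refine Finset.prod_congr rfl fun n _ => ?_
    rw [one_div_mul_one_div]
    congr 1
    ring
  rw [h1, tele n₀ (y + 1) hn₀ hy]
  refine (tele2 n₀ (y + 1) hn₀ hy).trans ?_
  have h2 : (1 : ℝ) ≤ n₀ := by exact_mod_cast hn₀
  have h3 : (0 : ℝ) ≤ y := Nat.cast_nonneg y
  push_cast
  rw [← mul_div_assoc, div_le_div_iff₀ (by linarith) (by linarith)]
  nlinarith

theorem wt0_insert (Q C : ℝ) (B : Finset ℕ) (N : ℕ) (h : ∀ n ∈ B, n < N) :
    wt0 Q C (insert N B) = 2 ^ (B.card + 1) * (C * (N : ℝ) ^ 3 / Q ^ N) + wt0 Q C B := by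
  have hN : N ∉ B := fun hN => lt_irrefl _ (h N hN)
  unfold wt0
  rw [Finset.sum_insert hN]
  congr 1
  · have e : (insert N B).filter (fun m => m ≤ N) = insert N B := by
      rw [Finset.filter_true_of_mem]
      intro m hm
      rw [mem_insert] at hm
      rcases hm with hm | hm
      · exact hm.le
      · exact (h m hm).le
    rw [e, Finset.card_insert_of_notMem hN]
  · refine Finset.sum_congr rfl fun n hn => ?_
    have e : (insert N B).filter (fun m => m ≤ n) = B.filter fun m => m ≤ n := by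
      rw [Finset.filter_insert, if_neg]
      have := h n hn
      omega
    rw [e]

theorem two_pow_card (q : ℝ) (hq : 1 < q) (s T : ℕ) (hs : 2 ≤ q ^ s) (B : Finset ℕ) (N : ℕ)
    (hN : ∑ n ∈ B, n ≤ N) : (2 : ℝ) ^ B.card ≤ 2 ^ s * q ^ N := by
  obtain ⟨k, hk⟩ : ∃ k, k = (B.filter fun n => ¬ n < s).card := ⟨_, rfl⟩
  have h1 : B.card ≤ s + k := by
    rw [← Finset.card_filter_add_card_filter_not (s := B) fun n => n < s, ← hk]
    refine Nat.add_le_add_right ?_ _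
    have : (B.filter fun n => n < s) ⊆ range s := fun n hn => by
      rw [mem_range]
      exact (mem_filter.1 hn).2
    have h := Finset.card_le_card this
    rw [card_range] at h
    exact h
  have h2 : k * s ≤ N := by
    have h3 : k * s ≤ ∑ n ∈ B.filter (fun n => ¬ n < s), n := by
      rw [hk, ← smul_eq_mul]
      refine Finset.card_nsmul_le_sum _ _ _ fun n hn => ?_
      have := (mem_filter.1 hn).2
      omega
    refine h3.trans (le_trans ?_ hN)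
    exact Finset.sum_le_sum_of_subset (Finset.filter_subset _ _)
  calc (2 : ℝ) ^ B.card ≤ 2 ^ (s + k) := pow_le_pow_right₀ (by norm_num) h1
    _ = 2 ^ s * 2 ^ k := pow_add _ _ _
    _ ≤ 2 ^ s * (q ^ s) ^ k := by gcongr
    _ = 2 ^ s * q ^ (k * s) := by rw [← pow_mul, mul_comm s k]
    _ ≤ 2 ^ s * q ^ N := by
      refine mul_le_mul_of_nonneg_left (pow_le_pow_right₀ hq.le h2) (by positivity)

theorem cnt_main (Q C ε : ℝ) (hQ : 1 < Q) (hC : 0 < C) (hε : 0 < ε) (r₀ N₀ : ℕ) : ∃ c : ℝ, 0 < c ∧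
    ∃ D₀ : ℕ, ∀ D : ℕ, D₀ ≤ D → ∃ 𝒜 : Finset (Finset ℕ),
    (∀ A ∈ 𝒜, (∀ n ∈ A, N₀ ≤ n) ∧ ∑ n ∈ A, n = D ∧ r₀ ≤ A.card ∧ wt0 Q C A ≤ ε) ∧
    c ≤ ∑ A ∈ 𝒜, ∏ n ∈ A, (1 / (n : ℝ)) := by
  have hQ0 : 0 < Q := by linarith
  -- the tail
  have hsum : Summable fun n : ℕ => 2 * C * ((n : ℝ) ^ 3 / Q ^ n) := by
    have h1 : Summable fun n : ℕ => (n : ℝ) ^ 3 * Q⁻¹ ^ n := by
      refine summable_pow_mul_geometric_of_norm_lt_one 3 ?_
      rw [Real.norm_of_nonneg (by positivity)]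
      exact inv_lt_one_of_one_lt₀ hQ
    refine (h1.mul_left (2 * C)).congr fun n => ?_
    rw [inv_pow, div_eq_mul_inv]
  obtain ⟨s, hs⟩ := summable_iff_vanishing_norm.1 hsum (ε / 16) (by positivity)
  obtain ⟨n₀, hn₀⟩ : ∃ n₀, n₀ = max N₀ (s.sup id) + 1 := ⟨_, rfl⟩
  have hn₀1 : 1 ≤ n₀ := by omega
  have hN₀ : N₀ ≤ n₀ := by
    have := le_max_left N₀ (s.sup id)
    omega
  -- the square root
  obtain ⟨q, hq⟩ : ∃ q : ℝ, q = Real.sqrt Q := ⟨_, rfl⟩
  have hq2 : q * q = Q := by rw [hq]; exact Real.mul_self_sqrt hQ0.le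
  have hq1 : 1 < q := by
    rw [hq]
    exact Real.lt_sqrt_of_sq_lt (by linarith)
  have hq0 : 0 < q := by linarith
  obtain ⟨s₁, hs₁⟩ := pow_unbounded_of_one_lt 2 hq1
  have hlim := tendsto_pow_const_div_const_pow_of_one_lt 3 hq1
  have hlim2 : ∀ᶠ n : ℕ in Filter.atTop, (n : ℝ) ^ 3 / q ^ n < ε / 2 / (2 ^ (s₁ + 1) * C) :=
    hlim.eventually (gt_mem_nhds (by positivity))
  obtain ⟨n₁, hn₁⟩ := Filter.eventually_atTop.1 hlim2
  have hn₀p : (0 : ℝ) < n₀ := by exact_mod_cast hn₀1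
  refine ⟨1 / (16 * n₀), by positivity, 8 * 128 * 4 ^ r₀ * n₀ + 2 * n₁ + 1, fun D hD => ?_⟩
  obtain ⟨y, hy⟩ : ∃ y, y = D / 8 := ⟨_, rfl⟩
  have h4 : 1 ≤ 4 ^ r₀ := Nat.one_le_pow _ _ (by norm_num)
  have hy1 : 128 * 4 ^ r₀ * n₀ ≤ y + 1 := by
    have : 8 * (128 * 4 ^ r₀ * n₀) ≤ D := by
      have e : 8 * (128 * 4 ^ r₀ * n₀) = 8 * 128 * 4 ^ r₀ * n₀ := by ring
      rw [e]
      omega
    omega
  have hy2 : n₀ ≤ y + 1 := by
    refine le_trans ?_ hy1
    calc n₀ = 1 * n₀ := (one_mul _).symm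
      _ ≤ 128 * 4 ^ r₀ * n₀ := Nat.mul_le_mul_right _ (by omega)
  have hD1 : 1 ≤ D := by omega
  have hD2 : 2 * n₁ ≤ D := by omega
  have hDp : (0 : ℝ) < D := by exact_mod_cast hD1
  obtain ⟨I, hI⟩ : ∃ I, I = Ico n₀ (y + 1) := ⟨_, rfl⟩
  obtain ⟨Z, hZ⟩ : ∃ Z : ℝ, Z = ∏ n ∈ I, (1 + 1 / (n : ℝ)) := ⟨_, rfl⟩
  have hZe : Z = (y + 1 : ℕ) / n₀ := by rw [hZ, hI, tele n₀ (y + 1) hn₀1 hy2]
  have hZ0 : 0 < Z := by rw [hZe]; positivity
  have hZ1 : 128 * 4 ^ r₀ ≤ Z := by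
    rw [hZe, le_div_iff₀ hn₀p]
    exact_mod_cast hy1
  have hyD : (y : ℝ) ≤ D / 8 := by
    rw [hy]
    exact Nat.cast_div_le
  have hDy : (D : ℝ) / 8 ≤ (y + 1 : ℕ) := by
    have : D ≤ 8 * (y + 1) := by omega
    have h : (D : ℝ) ≤ 8 * (y + 1 : ℕ) := by exact_mod_cast this
    linarith
  -- bad sets
  have B1 := bad1 n₀ y hn₀1
  rw [← hI, ← hZ] at B1
  have B1' := markov I (fun B => ((∑ n ∈ B, n : ℕ) : ℝ)) (D / 2) _ (fun B => Nat.cast_nonneg _) (by positivity) B1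
  have B1'' : (y : ℝ) * Z / (D / 2) ≤ Z / 4 := by
    rw [div_le_iff₀ (by positivity)]
    nlinarith
  have B2 := bad2 Q C hQ hC n₀ y hn₀1
  rw [← hI, ← hZ] at B2
  have B2' := markov I (fun B => wt0 Q C B) (ε / 2) _ (fun B => by
    unfold wt0
    exact Finset.sum_nonneg fun n _ => by positivity) (by positivity) B2
  have htail : ∑ n ∈ I, 2 * C * ((n : ℝ) ^ 3 / Q ^ n) ≤ ε / 16 := by
    have hdis : Disjoint I s := by
      rw [Finset.disjoint_left]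
      intro a ha has
      rw [hI, mem_Ico] at ha
      have h1 : a ≤ s.sup id := Finset.le_sup (f := id) has
      have h2 := le_max_right N₀ (s.sup id)
      omega
    exact ((le_abs_self _).trans (hs I hdis).le)
  have B2'' : Z * (∑ n ∈ I, 2 * C * ((n : ℝ) ^ 3 / Q ^ n)) / (ε / 2) ≤ Z / 8 := by
    rw [div_le_iff₀ (by positivity)]
    calc Z * (∑ n ∈ I, 2 * C * ((n : ℝ) ^ 3 / Q ^ n)) ≤ Z * (ε / 16) := mul_le_mul_of_nonneg_left htail hZ0.le
      _ = _ := by ring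
  have B3 := bad3 n₀ y hn₀1 hy2
  rw [← hI, ← hZ] at B3
  obtain ⟨P, hP⟩ : ∃ P : ℝ, P = ∑ B ∈ I.powerset, W B * (1 / 2) ^ B.card := ⟨_, rfl⟩
  rw [← hP] at B3
  have B3' := markov I (fun B => (1 / 2 : ℝ) ^ B.card) ((1 / 2) ^ r₀) P (fun B => by positivity) (by positivity) hP.ge
  have B3'' : P / (1 / 2) ^ r₀ ≤ Z / 8 := by
    have e : P / (1 / 2) ^ r₀ = P * 2 ^ r₀ := by
      rw [one_div, inv_pow, div_inv_eq_mul]
    rw [e]
    have h5 : (P * 2 ^ r₀) ^ 2 ≤ (Z / 8) ^ 2 := by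
      have e2 : (P * 2 ^ r₀) ^ 2 = P ^ 2 * 4 ^ r₀ := by
        rw [mul_pow, ← pow_mul, mul_comm r₀ 2, pow_mul]
        norm_num
      rw [e2]
      have h6 : P ^ 2 * 4 ^ r₀ ≤ 2 * Z * 4 ^ r₀ := mul_le_mul_of_nonneg_right B3 (by positivity)
      nlinarith
    exact le_of_sq_le_sq h5 (by positivity)
  -- the good sets
  obtain ⟨𝒢, h𝒢⟩ : ∃ 𝒢, 𝒢 = I.powerset.filter fun B => 2 * (∑ n ∈ B, n) ≤ D ∧ wt0 Q C B ≤ ε / 2 ∧ r₀ ≤ B.card :=
    ⟨_, rfl⟩
  have hgood : Z / 2 ≤ ∑ B ∈ 𝒢, W B := by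
    have h7 : Z ≤ (∑ B ∈ 𝒢, W B) + (∑ B ∈ I.powerset, (if (D : ℝ) / 2 < ((∑ n ∈ B, n : ℕ) : ℝ) then W B else 0)) +
        (∑ B ∈ I.powerset, (if ε / 2 < wt0 Q C B then W B else 0)) +
        ∑ B ∈ I.powerset, (if (1 / 2 : ℝ) ^ r₀ < (1 / 2) ^ B.card then W B else 0) := by
      rw [hZ, ← sum_W, h𝒢, Finset.sum_filter, ← Finset.sum_add_distrib, ← Finset.sum_add_distrib,
        ← Finset.sum_add_distrib]
      refine Finset.sum_le_sum fun B _ => ?_
      have hW := W_nonneg B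
      have p1 : 0 ≤ (if (D : ℝ) / 2 < ((∑ n ∈ B, n : ℕ) : ℝ) then W B else 0) := by split_ifs <;> simp [hW]
      have p2 : 0 ≤ (if ε / 2 < wt0 Q C B then W B else 0) := by split_ifs <;> simp [hW]
      have p3 : 0 ≤ (if (1 / 2 : ℝ) ^ r₀ < (1 / 2) ^ B.card then W B else 0) := by split_ifs <;> simp [hW]
      have p0 : 0 ≤ (if 2 * (∑ n ∈ B, n) ≤ D ∧ wt0 Q C B ≤ ε / 2 ∧ r₀ ≤ B.card then W B else 0) := by
        split_ifs <;> simp [hW]
      by_cases c1 : 2 * (∑ n ∈ B, n) ≤ D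
      · by_cases c2 : wt0 Q C B ≤ ε / 2
        · by_cases c3 : r₀ ≤ B.card
          · rw [if_pos ⟨c1, c2, c3⟩]
            linarith
          · have : (1 / 2 : ℝ) ^ r₀ < (1 / 2) ^ B.card :=
              pow_lt_pow_right_of_lt_one₀ (by norm_num) (by norm_num) (by omega)
            rw [if_pos this]
            linarith
        · rw [if_pos (not_le.1 c2)]
          linarith
      · have : (D : ℝ) / 2 < ((∑ n ∈ B, n : ℕ) : ℝ) := by
          have h8 : (D : ℝ) < 2 * ((∑ n ∈ B, n : ℕ) : ℝ) := by exact_mod_cast not_le.1 c1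
          linarith
        rw [if_pos this]
        linarith
    linarith
  -- the family
  have hB : ∀ B ∈ 𝒢, B ⊆ I ∧ 2 * (∑ n ∈ B, n) ≤ D ∧ wt0 Q C B ≤ ε / 2 ∧ r₀ ≤ B.card := by
    intro B hB
    rw [h𝒢, mem_filter, mem_powerset] at hB
    exact hB
  have hlt : ∀ B ∈ 𝒢, ∀ n ∈ B, n < D - ∑ n ∈ B, n := by
    intro B hB' n hn
    obtain ⟨h1, h2, -, -⟩ := hB B hB'
    have h3 := h1 hn
    rw [hI, mem_Ico] at h3
    omega
  have hnot : ∀ B ∈ 𝒢, D - ∑ n ∈ B, n ∉ B := fun B hB' h => lt_irrefl _ (hlt B hB' _ h)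
  refine ⟨𝒢.image fun B => insert (D - ∑ n ∈ B, n) B, ?_, ?_⟩
  · intro A hA
    rw [mem_image] at hA
    obtain ⟨B, hB', rfl⟩ := hA
    obtain ⟨h1, h2, h3, h5⟩ := hB B hB'
    refine ⟨?_, ?_, ?_, ?_⟩
    · intro n hn
      rw [mem_insert] at hn
      rcases hn with hn | hn
      · omega
      · have h6 := h1 hn
        rw [hI, mem_Ico] at h6
        omega
    · rw [Finset.sum_insert (hnot B hB')]
      omega
    · rw [Finset.card_insert_of_notMem (hnot B hB')]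
      omega
    · obtain ⟨N, hN⟩ : ∃ N, N = D - ∑ n ∈ B, n := ⟨_, rfl⟩
      rw [← hN, wt0_insert Q C B N (by rw [hN]; exact hlt B hB')]
      have h6 : (2 : ℝ) ^ B.card ≤ 2 ^ s₁ * q ^ N :=
        two_pow_card q hq1 s₁ 0 hs₁.le B N (by omega)
      have h7 := hn₁ N (by omega)
      have hqN : 0 < q ^ N := by positivity
      have h8 : 2 ^ (B.card + 1) * (C * (N : ℝ) ^ 3 / Q ^ N) ≤ ε / 2 := by
        have e1 : Q ^ N = q ^ N * q ^ N := by rw [← hq2, mul_pow]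
        calc 2 ^ (B.card + 1) * (C * (N : ℝ) ^ 3 / Q ^ N) = 2 ^ B.card * (2 * (C * (N : ℝ) ^ 3 / Q ^ N)) := by ring
          _ ≤ (2 ^ s₁ * q ^ N) * (2 * (C * (N : ℝ) ^ 3 / Q ^ N)) := mul_le_mul_of_nonneg_right h6 (by positivity)
          _ = (2 ^ (s₁ + 1) * C) * ((N : ℝ) ^ 3 / q ^ N) := by
            rw [e1]
            field_simp
            ring
          _ ≤ (2 ^ (s₁ + 1) * C) * (ε / 2 / (2 ^ (s₁ + 1) * C)) := mul_le_mul_of_nonneg_left h7.le (by positivity)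
          _ = ε / 2 := by field_simp
      linarith
  · have hinj : Set.InjOn (fun B : Finset ℕ => insert (D - ∑ n ∈ B, n) B) (𝒢 : Set (Finset ℕ)) := by
      intro B hB1 B' hB2 h
      have key : ∀ B ∈ 𝒢, (insert (D - ∑ n ∈ B, n) B).filter (fun n => n ≤ y) = B := by
        intro B hB'
        obtain ⟨h1, h2, -, -⟩ := hB B hB'
        rw [Finset.filter_insert, if_neg (by omega), Finset.filter_true_of_mem]
        intro n hn
        have h6 := h1 hn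
        rw [hI, mem_Ico] at h6
        omega
      have h' : insert (D - ∑ n ∈ B, n) B = insert (D - ∑ n ∈ B', n) B' := h
      have k1 := key B (by exact_mod_cast hB1)
      have k2 := key B' (by exact_mod_cast hB2)
      rw [h'] at k1
      exact k1.symm.trans k2
    rw [Finset.sum_image hinj]
    have h9 : ∀ B ∈ 𝒢, 1 / (D : ℝ) * W B ≤ ∏ n ∈ insert (D - ∑ n ∈ B, n) B, (1 / (n : ℝ)) := by
      intro B hB'
      rw [Finset.prod_insert (hnot B hB')]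
      refine mul_le_mul_of_nonneg_right ?_ (W_nonneg B)
      obtain ⟨h1, h2, -, -⟩ := hB B hB'
      have h10 : 0 < D - ∑ n ∈ B, n := by omega
      have h11 : (0 : ℝ) < ((D - ∑ n ∈ B, n : ℕ) : ℝ) := by exact_mod_cast h10
      refine one_div_le_one_div_of_le h11 ?_
      exact_mod_cast Nat.sub_le _ _
    refine le_trans ?_ (Finset.sum_le_sum h9)
    rw [← Finset.mul_sum]
    calc 1 / (16 * (n₀ : ℝ)) = 1 / D * ((D / 8 : ℝ) / n₀ / 2) := by
          field_simp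
          norm_num
      _ ≤ 1 / D * (((y + 1 : ℕ) : ℝ) / n₀ / 2) := by gcongr
      _ = 1 / D * (Z / 2) := by rw [hZe]
      _ ≤ _ := mul_le_mul_of_nonneg_left hgood (by positivity)

end Pool.Agent.D0H21.OD
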