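import Pool.Agent.D0H99.OD.Stm
import Pool.Agent.D0H21.OD.Cnt0

/-!
# OD, module CNT
-/

set_option autoImplicit false

namespace Pool.Agent.D0H21.OD

theorem t_CNT : Pool.Agent.D0H99.OD.S_CNT := by
  intro Q C ε hQ hC hε r₀ N₀
  exact cnt_main Q C ε hQ hC hε r₀ N₀

end Pool.Agent.D0H21.OD
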