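import Pool.Agent.D0H21.OD.Gn

/-!
# OD3, module GD: the orthogonal vectors are orthogonal to the perturbation
-/

set_option autoImplicit false

namespace Pool.Agent.D0H21.OD

open Finset Pool.Agent.D0H99.OD
open Pool.Agent.D0H99.RM (V X sy cst)

section
variable {k : ℕ}

/-- the product with a matrix -/
def TT (S : Fin k → Fin k → ZMod 2) (u : Fin k → ZMod 2) (j : Fin k) : ZMod 2 := ∑ j', S j j' * u j'

theorem TT_add (S : Fin k → Fin k → ZMod 2) (u v : Fin k → ZMod 2) (j : Fin k) :
    TT S (fun j => u j + v j) j = TT S u j + TT S v j := by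
  unfold TT
  rw [← Finset.sum_add_distrib]
  exact Finset.sum_congr rfl fun j' _ => by ring

theorem bT (S : Fin k → Fin k → ZMod 2) (hS : ∀ j j', S j j' = S j' j) (u v : Fin k → ZMod 2) :
    ∑ j, TT S u j * v j = ∑ j, TT S v j * u j := by
  have h := bil_symm S hS u v
  unfold TT
  simp only [Finset.sum_mul]
  exact h

theorem qT (S : Fin k → Fin k → ZMod 2) (hS : ∀ j j', S j j' = S j' j) (u : Fin k → ZMod 2) :
    ∑ j, TT S u j * u j = ∑ j, S j j * u j := by
  have h := quad S hS u
  unfold TT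
  simp only [Finset.sum_mul]
  exact h

theorem part2 (S : Fin k → Fin k → ZMod 2) (hS : ∀ j j', S j j' = S j' j) (κ lam : ZMod 2)
    (u v : Fin k → ZMod 2) :
    ∑ j, ((TT S v j + S j j) * (lam * v j + κ * (u j + v j)) +
      (TT S u j + S j j) * (lam * u j + κ * (u j + v j))) =
    κ * ∑ j, S j j * (u j + v j) := by
  have h1 := qT S hS u
  have h2 := qT S hS v
  have h3 := qT S hS (fun j => u j + v j)
  have e1 : ∑ j, ((TT S v j + S j j) * (lam * v j + κ * (u j + v j)) +
      (TT S u j + S j j) * (lam * u j + κ * (u j + v j))) =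
      lam * (∑ j, TT S v j * v j + ∑ j, S j j * v j) +
      lam * (∑ j, TT S u j * u j + ∑ j, S j j * u j) +
      κ * (∑ j, TT S (fun j => u j + v j) j * (u j + v j)) +
      κ * ((∑ j, S j j * (u j + v j)) + ∑ j, S j j * (u j + v j)) := by
    simp only [← Finset.sum_add_distrib, Finset.mul_sum, TT_add]
    refine Finset.sum_congr rfl fun j _ => ?_
    ring
  rw [e1, h1, h2, h3]
  simp only [CharTwo.add_self_eq_zero, mul_zero, add_zero, zero_add]

theorem part1 (S : Fin k → Fin k → ZMod 2) (hS : ∀ j j', S j j' = S j' j) (κ lam : ZMod 2)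
    (p q : Fin k → ZMod 2) :
    ∑ j, (TT S q j * (lam * p j + κ * (p j + q j)) + TT S p j * (lam * q j + κ * (p j + q j))) =
    κ * ∑ j, S j j * (p j + q j) := by
  have h1 := bT S hS p q
  have h3 := qT S hS (fun j => p j + q j)
  have e1 : ∑ j, (TT S q j * (lam * p j + κ * (p j + q j)) +
      TT S p j * (lam * q j + κ * (p j + q j))) =
      lam * (∑ j, TT S q j * p j + ∑ j, TT S p j * q j) +
      κ * (∑ j, TT S (fun j => p j + q j) j * (p j + q j)) := by
    simp only [← Finset.sum_add_distrib, Finset.mul_sum, TT_add]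
    refine Finset.sum_congr rfl fun j _ => ?_
    ring
  rw [e1, h1, h3]
  simp only [CharTwo.add_self_eq_zero, mul_zero, zero_add]

end

theorem t_GD : S_GD := by
  intro C _ k r a c ha hc δ hδ κ lam
  obtain ⟨S₀, rfl⟩ := orth_exists a c ha hc
  refine Finset.sum_eq_zero fun i _ => ?_
  obtain ⟨S, hS⟩ : ∃ S : Fin k → Fin k → ZMod 2, S = fun j j' => S₀ i s(j, j') := ⟨_, rfl⟩
  have hSs : ∀ j j', S j j' = S j' j := by
    intro j j'
    rw [hS]
    change S₀ i s(j, j') = S₀ i s(j', j)
    rw [Sym2.eq_swap]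
  obtain ⟨p, hp⟩ : ∃ p : Fin k → ZMod 2, p = fun j => ∑ y, δ y * a y i j 0 := ⟨_, rfl⟩
  obtain ⟨q, hq⟩ : ∃ q : Fin k → ZMod 2, q = fun j => ∑ y, δ y * a y i j 1 := ⟨_, rfl⟩
  have hc0 : ∀ x j, Phi a S₀ x i j 0 = TT S (fun j => a x i j 1) j + S j j := by
    intro x j
    rw [hS]
    rfl
  have hc1 : ∀ x j, Phi a S₀ x i j 1 = TT S (fun j => a x i j 0) j + S j j := by
    intro x j
    rw [hS]
    rfl
  have hD0 : ∀ x j, Dl δ κ lam (fun x => a x i j) x 0 =
      δ x * ((lam * p j + κ * (p j + q j)) + (lam * a x i j 1 + κ * (a x i j 0 + a x i j 1))) := by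
    intro x j
    unfold Dl
    have h1 : ∑ y, δ y * (lam * a y i j 0 + κ * (a y i j 0 + a y i j 1)) =
        lam * p j + κ * (p j + q j) := by
      rw [hp, hq]
      simp only [← Finset.sum_add_distrib, Finset.mul_sum]
      exact Finset.sum_congr rfl fun y _ => by ring
    rw [h1]
    change δ x * (lam * p j + κ * (p j + q j) + lam * a x i j 1 + κ * (a x i j 0 + a x i j 1)) = _
    ring
  have hD1 : ∀ x j, Dl δ κ lam (fun x => a x i j) x 1 =
      δ x * ((lam * q j + κ * (p j + q j)) + (lam * a x i j 0 + κ * (a x i j 0 + a x i j 1))) := by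
    intro x j
    unfold Dl
    have h1 : ∑ y, δ y * (lam * a y i j 1 + κ * (a y i j 0 + a y i j 1)) =
        lam * q j + κ * (p j + q j) := by
      rw [hp, hq]
      simp only [← Finset.sum_add_distrib, Finset.mul_sum]
      exact Finset.sum_congr rfl fun y _ => by ring
    rw [h1]
    change δ x * (lam * q j + κ * (p j + q j) + lam * a x i j 0 + κ * (a x i j 0 + a x i j 1)) = _
    ring
  have hT : ∀ (w : Fin r → Fin k → ZMod 2) (j : Fin k), ∑ x, δ x * (TT S (w x) j + S j j) =
      TT S (fun j => ∑ x, δ x * w x j) j := by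
    intro w j
    simp only [mul_add, Finset.sum_add_distrib, ← Finset.sum_mul, hδ, zero_mul, add_zero]
    unfold TT
    simp only [Finset.mul_sum]
    rw [Finset.sum_comm]
    exact Finset.sum_congr rfl fun j' _ => Finset.sum_congr rfl fun x _ => by ring
  have e1 : ∑ j, ∑ x, ∑ b, Phi a S₀ x i j b * Dl δ κ lam (fun x => a x i j) x b =
      (∑ x, δ x * ∑ j, ((TT S (fun j => a x i j 1) j + S j j) *
          (lam * a x i j 1 + κ * (a x i j 0 + a x i j 1)) +
        (TT S (fun j => a x i j 0) j + S j j) *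
          (lam * a x i j 0 + κ * (a x i j 0 + a x i j 1)))) +
      ∑ j, ((∑ x, δ x * (TT S (fun j => a x i j 1) j + S j j)) * (lam * p j + κ * (p j + q j)) +
        (∑ x, δ x * (TT S (fun j => a x i j 0) j + S j j)) * (lam * q j + κ * (p j + q j))) := by
    have e2 : (∑ x, δ x * ∑ j, ((TT S (fun j => a x i j 1) j + S j j) *
          (lam * a x i j 1 + κ * (a x i j 0 + a x i j 1)) +
        (TT S (fun j => a x i j 0) j + S j j) *
          (lam * a x i j 0 + κ * (a x i j 0 + a x i j 1)))) =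
        ∑ j, ∑ x, δ x * ((TT S (fun j => a x i j 1) j + S j j) *
          (lam * a x i j 1 + κ * (a x i j 0 + a x i j 1)) +
        (TT S (fun j => a x i j 0) j + S j j) *
          (lam * a x i j 0 + κ * (a x i j 0 + a x i j 1))) := by
      rw [Finset.sum_comm]
      exact Finset.sum_congr rfl fun x _ => Finset.mul_sum _ _ _
    rw [e2, ← Finset.sum_add_distrib]
    refine Finset.sum_congr rfl fun j _ => ?_
    rw [Finset.sum_mul, Finset.sum_mul, ← Finset.sum_add_distrib, ← Finset.sum_add_distrib]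
    refine Finset.sum_congr rfl fun x _ => ?_
    rw [Fin.sum_univ_two, hc0, hc1, hD0, hD1]
    ring
  rw [e1]
  have e3 : ∀ x, ∑ j, ((TT S (fun j => a x i j 1) j + S j j) *
          (lam * a x i j 1 + κ * (a x i j 0 + a x i j 1)) +
        (TT S (fun j => a x i j 0) j + S j j) *
          (lam * a x i j 0 + κ * (a x i j 0 + a x i j 1))) =
      κ * ∑ j, S j j * (a x i j 0 + a x i j 1) := fun x =>
    part2 S hSs κ lam (fun j => a x i j 0) (fun j => a x i j 1)
  have e4 : ∑ j, ((∑ x, δ x * (TT S (fun j => a x i j 1) j + S j j)) *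
        (lam * p j + κ * (p j + q j)) +
      (∑ x, δ x * (TT S (fun j => a x i j 0) j + S j j)) * (lam * q j + κ * (p j + q j))) =
      κ * ∑ j, S j j * (p j + q j) := by
    rw [← part1 S hSs κ lam p q]
    refine Finset.sum_congr rfl fun j _ => ?_
    rw [hT (fun x j => a x i j 1) j, hT (fun x j => a x i j 0) j, hp, hq]
  have e5 : ∑ x, δ x * (κ * ∑ j, S j j * (a x i j 0 + a x i j 1)) = κ * ∑ j, S j j * (p j + q j) := by
    rw [hp, hq]
    simp only [← Finset.sum_add_distrib, Finset.mul_sum]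
    rw [Finset.sum_comm]
    exact Finset.sum_congr rfl fun j _ => Finset.sum_congr rfl fun x _ => by ring
  rw [e4, Finset.sum_congr rfl (fun x _ => by rw [e3 x]), e5, CharTwo.add_self_eq_zero]

end Pool.Agent.D0H21.OD
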