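import Pool.Agent.D0H99.OD.Stm3

/-!
# OD3, modules GN and GD: the vectors orthogonal to the systems, for a surjective map
-/

set_option autoImplicit false

namespace Pool.Agent.D0H21.OD

open Finset Pool.Agent.D0H99.OD
open Pool.Agent.D0H99.RM (V X sy cst)

theorem z2_mul_self (a : ZMod 2) : a * a = a := by
  revert a
  decide

theorem z2_eq_of_add {a b : ZMod 2} (h : a + b = 0) : a = b := by
  revert h
  revert a b
  decide

theorem fin2_add (s : Fin 2) : s + 1 + 1 = s := by
  revert s
  decide

section form
variable {k : ℕ}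

theorem bil_symm (S : Fin k → Fin k → ZMod 2) (hS : ∀ j j', S j j' = S j' j) (u v : Fin k → ZMod 2) :
    ∑ j, ∑ j', S j j' * u j' * v j = ∑ j, ∑ j', S j j' * v j' * u j := by
  rw [Finset.sum_comm]
  refine Finset.sum_congr rfl fun j _ => Finset.sum_congr rfl fun j' _ => ?_
  rw [hS j' j]
  ring

theorem quad (S : Fin k → Fin k → ZMod 2) (hS : ∀ j j', S j j' = S j' j) (u : Fin k → ZMod 2) :
    ∑ j, ∑ j', S j j' * u j' * u j = ∑ j, S j j * u j := by
  have hq : ∀ u v : Fin k → ZMod 2, (∑ j, ∑ j', S j j' * (u + v) j' * (u + v) j) +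
      ∑ j, S j j * (u + v) j =
      ((∑ j, ∑ j', S j j' * u j' * u j) + ∑ j, S j j * u j) +
        ((∑ j, ∑ j', S j j' * v j' * v j) + ∑ j, S j j * v j) := by
    intro u v
    have e1 : ∑ j, ∑ j', S j j' * (u + v) j' * (u + v) j =
        (∑ j, ∑ j', S j j' * u j' * u j) + (∑ j, ∑ j', S j j' * v j' * v j) +
        ((∑ j, ∑ j', S j j' * u j' * v j) + ∑ j, ∑ j', S j j' * v j' * u j) := by
      simp only [← Finset.sum_add_distrib]
      refine Finset.sum_congr rfl fun j _ => Finset.sum_congr rfl fun j' _ => ?_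
      simp only [Pi.add_apply]
      ring
    have e2 : ∑ j, S j j * (u + v) j = ∑ j, S j j * u j + ∑ j, S j j * v j := by
      rw [← Finset.sum_add_distrib]
      refine Finset.sum_congr rfl fun j _ => ?_
      simp only [Pi.add_apply]
      ring
    rw [e1, bil_symm S hS u v, CharTwo.add_self_eq_zero, e2]
    ring
  have h0 : ∀ s : Finset (Fin k), (∑ j, ∑ j', S j j' *
      (∑ t ∈ s, (Pi.single t (u t) : Fin k → ZMod 2)) j' *
      (∑ t ∈ s, (Pi.single t (u t) : Fin k → ZMod 2)) j) +
      ∑ j, S j j * (∑ t ∈ s, (Pi.single t (u t) : Fin k → ZMod 2)) j = 0 := by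
    intro s
    induction s using Finset.induction_on with
    | empty => simp
    | insert t s ht ih =>
      rw [Finset.sum_insert ht, hq, ih, add_zero]
      have e3 : ∑ j, ∑ j', S j j' * (Pi.single t (u t) : Fin k → ZMod 2) j' *
          (Pi.single t (u t) : Fin k → ZMod 2) j = S t t * u t * u t := by
        rw [Finset.sum_eq_single t, Finset.sum_eq_single t, Pi.single_eq_same]
        · intro j _ hj
          rw [Pi.single_eq_of_ne hj, mul_zero, zero_mul]
        · intro h
          exact absurd (Finset.mem_univ _) h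
        · intro j _ hj
          refine Finset.sum_eq_zero fun j' _ => ?_
          rw [Pi.single_eq_of_ne hj, mul_zero]
        · intro h
          exact absurd (Finset.mem_univ _) h
      have e4 : ∑ j, S j j * (Pi.single t (u t) : Fin k → ZMod 2) j = S t t * u t := by
        rw [Finset.sum_eq_single t, Pi.single_eq_same]
        · intro j _ hj
          rw [Pi.single_eq_of_ne hj, mul_zero]
        · intro h
          exact absurd (Finset.mem_univ _) h
      rw [e3, e4, mul_assoc, z2_mul_self, CharTwo.add_self_eq_zero]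
  have h1 := h0 Finset.univ
  rw [Finset.univ_sum_single] at h1
  exact z2_eq_of_add h1

end form

section
variable {C : Type} [Fintype C] {k r : ℕ}

/-- the pairing -/
def ip (u v : Wk C k) : ZMod 2 := ∑ i, ∑ j, ∑ s, u i j s * v i j s

open scoped Classical in
/-- the unit vectors -/
noncomputable def e (i : C) (j : Fin k) (s : Fin 2) : Wk C k :=
  fun i' j' s' => if i' = i ∧ j' = j ∧ s' = s then 1 else 0

theorem ip_e (i : C) (j : Fin k) (s : Fin 2) (v : Wk C k) : ip (e i j s) v = v i j s := by
  classical
  unfold ip e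
  rw [Finset.sum_eq_single i, Finset.sum_eq_single j, Finset.sum_eq_single s]
  · simp
  · intro s' _ h
    simp [h]
  · simp
  · intro j' _ h
    simp [h]
  · simp
  · intro i' _ h
    simp [h]
  · simp

theorem ip_add_left (u v w : Wk C k) : ip (u + v) w = ip u w + ip v w := by
  unfold ip
  simp only [← Finset.sum_add_distrib, Pi.add_apply, add_mul]

theorem ip_sub_left (u v w : Wk C k) : ip (u - v) w = ip u w - ip v w := by
  unfold ip
  simp only [← Finset.sum_sub_distrib, Pi.sub_apply, sub_mul]

theorem ip_sub_right (u v w : Wk C k) : ip u (v - w) = ip u v - ip u w := by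
  unfold ip
  simp only [← Finset.sum_sub_distrib, Pi.sub_apply, mul_sub]

theorem pair_ip (a c a' c' : Wk C k) : Pair a c a' c' ↔ ip (a - a') (c - c') = 0 := Iff.rfl

/-- the parametrization -/
def Phi (a : Fin r → Wk C k) (S : C → Sym2 (Fin k) → ZMod 2) : Fin r → Wk C k :=
  fun x i j s => ∑ j', S i s(j, j') * a x i j' (s + 1) + S i s(j, j)

theorem Phi_orth (a : Fin r → Wk C k) (S : C → Sym2 (Fin k) → ZMod 2) : Orth a (Phi a S) := by
  constructor
  · intro x i s
    have h := quad (fun j j' => S i s(j, j')) (fun j j' => by rw [Sym2.eq_swap])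
      (fun j => a x i j s)
    have e1 : ∑ j, a x i j s * Phi a S x i j (s + 1) =
        (∑ j, ∑ j', S i s(j, j') * a x i j' s * a x i j s) + ∑ j, S i s(j, j) * a x i j s := by
      rw [← Finset.sum_add_distrib]
      refine Finset.sum_congr rfl fun j _ => ?_
      unfold Phi
      rw [fin2_add, ← Finset.sum_mul]
      ring
    rw [e1, h, CharTwo.add_self_eq_zero]
  · intro x y
    unfold Pair
    refine Finset.sum_eq_zero fun i _ => ?_
    obtain ⟨d, hd⟩ : ∃ d : Fin k → Fin 2 → ZMod 2, d = fun j s => a x i j s - a y i j s := ⟨_, rfl⟩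
    have e1 : ∀ j s, (a x i j s - a y i j s) * (Phi a S x i j s - Phi a S y i j s) =
        ∑ j', S i s(j, j') * d j' (s + 1) * d j s := by
      intro j s
      unfold Phi
      rw [add_sub_add_right_eq_sub, ← Finset.sum_sub_distrib, Finset.mul_sum]
      refine Finset.sum_congr rfl fun j' _ => ?_
      rw [hd]
      ring
    have e2 : ∑ j, ∑ s, (a x i j s - a y i j s) * (Phi a S x i j s - Phi a S y i j s) =
        (∑ j, ∑ j', S i s(j, j') * d j' 1 * d j 0) + ∑ j, ∑ j', S i s(j, j') * d j' 0 * d j 1 := by
      rw [← Finset.sum_add_distrib]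
      refine Finset.sum_congr rfl fun j _ => ?_
      rw [Fin.sum_univ_two, e1, e1]
      rfl
    have h := bil_symm (fun j j' => S i s(j, j')) (fun j j' => by rw [Sym2.eq_swap])
      (fun j => d j 1) (fun j => d j 0)
    rw [e2, h, CharTwo.add_self_eq_zero]

omit [Fintype C] in
theorem Phi_inj (a : Fin r → Wk C k) (ha : Function.Surjective a) : Function.Injective (Phi a) := by
  intro S S' h
  have hd : ∀ i j, S i s(j, j) = S' i s(j, j) := by
    intro i j
    obtain ⟨x, hx⟩ := ha 0
    have h1 := congrFun (congrFun (congrFun (congrFun h x) i) j) 0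
    unfold Phi at h1
    rw [hx] at h1
    simpa using h1
  funext i z
  induction z using Sym2.ind with
  | _ j j' =>
    obtain ⟨x, hx⟩ := ha (e i j' 1)
    have h1 := congrFun (congrFun (congrFun (congrFun h x) i) j) 0
    unfold Phi at h1
    rw [hx, hd] at h1
    have h2 := add_right_cancel h1
    simpa [e] using h2

theorem orth_exists (a c : Fin r → Wk C k) (ha : Function.Surjective a) (h : Orth a c) :
    ∃ S, Phi a S = c := by
  classical
  choose σ hσ using ha
  obtain ⟨F, hF⟩ : ∃ F : Wk C k → Wk C k, F = fun u => c (σ u) := ⟨_, rfl⟩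
  have hP : ∀ x y, ip (a x - a y) (c x - c y) = 0 := h.2
  have hFu : ∀ u v, ip (u - v) (F u - F v) = 0 := by
    intro u v
    have := hP (σ u) (σ v)
    rw [hσ, hσ] at this
    rw [hF]
    exact this
  have hFc : ∀ u i s, ∑ j, u i j s * F u i j (s + 1) = 0 := by
    intro u i s
    have := h.1 (σ u) i s
    rw [hσ] at this
    rw [hF]
    exact this
  have hc : ∀ x, c x = F (a x) := by
    intro x
    have h1 : ∀ w, ip w (c x - c (σ (a x))) = 0 := by
      intro w
      have h2 := hP x (σ (a x - w))
      have h3 := hP (σ (a x)) (σ (a x - w))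
      rw [hσ, sub_sub_cancel] at h2
      rw [hσ, hσ, sub_sub_cancel] at h3
      rw [ip_sub_right] at h2 h3 ⊢
      rw [sub_eq_zero.1 h2, sub_eq_zero.1 h3, sub_self]
    have h4 : c x - c (σ (a x)) = 0 := by
      funext i j s
      rw [← ip_e i j s (c x - c (σ (a x))), h1]
      rfl
    rw [hF]
    exact sub_eq_zero.1 h4
  obtain ⟨G, hG⟩ : ∃ G : Wk C k → Wk C k, G = fun u => F u - F 0 := ⟨_, rfl⟩
  have hGF : ∀ u i j s, F u i j s = G u i j s + F 0 i j s := by
    intro u i j s
    rw [hG]
    simp
  have hGG : ∀ u, ip u (G u) = 0 := by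
    intro u
    have := hFu u 0
    rw [sub_zero] at this
    rw [hG]
    exact this
  have hsym : ∀ u v, ip u (G v) = ip v (G u) := by
    intro u v
    have h1 := hFu u v
    have h2 : F u - F v = G u - G v := by
      rw [hG]
      simp
    rw [h2, ip_sub_left, ip_sub_right, ip_sub_right, hGG, hGG] at h1
    apply z2_eq_of_add
    have h3 : ip u (G v) + ip v (G u) = -(0 - ip u (G v) - (ip v (G u) - 0)) := by ring
    rw [h3, h1, neg_zero]
  have hGe : ∀ u i j s, G u i j s = ip u (G (e i j s)) := by
    intro u i j s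
    rw [← hsym, ip_e]
  have hgs : ∀ i j s i' j' s', G (e i j s) i' j' s' = G (e i' j' s') i j s := by
    intro i j s i' j' s'
    rw [hGe, ip_e]
  -- (A)
  have hA : ∀ i j s, F 0 i j (s + 1) = G (e i j (s + 1)) i j s := by
    intro i j s
    have h1 := hFc (e i j s) i s
    rw [Finset.sum_eq_single j] at h1
    · have h2 : (e i j s : Wk C k) i j s = 1 := by simp [e]
      rw [h2, one_mul, hGF] at h1
      rw [← z2_eq_of_add h1, hgs]
    · intro j' _ hj'
      have h2 : (e i j s : Wk C k) i j' s = 0 := by simp [e, hj']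
      rw [h2, zero_mul]
    · intro h2
      exact absurd (Finset.mem_univ _) h2
  -- the value at a sum of two unit vectors
  have hval : ∀ i j s i' j' s', F (e i j s + e i' j' s') i j (s + 1) = G (e i j (s + 1)) i' j' s' := by
    intro i j s i' j' s'
    rw [hGF, hGe, ip_add_left, ip_e, ip_e, hA, add_right_comm, CharTwo.add_self_eq_zero, zero_add]
  -- (B)
  have hB : ∀ i j s i' j' s', (i' ≠ i ∨ s' ≠ s) → G (e i j (s + 1)) i' j' s' = 0 := by
    intro i j s i' j' s' hne
    have h1 := hFc (e i j s + e i' j' s') i s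
    have h3 : ∀ j'', (e i' j' s' : Wk C k) i j'' s = 0 := by
      intro j''
      unfold e
      rw [if_neg]
      rintro ⟨h4, -, h5⟩
      rcases hne with h6 | h6
      · exact h6 h4.symm
      · exact h6 h5.symm
    rw [Finset.sum_eq_single j] at h1
    · have h2 : (e i j s + e i' j' s' : Wk C k) i j s = 1 := by
        change (e i j s : Wk C k) i j s + (e i' j' s' : Wk C k) i j s = 1
        rw [h3, add_zero]
        simp [e]
      rw [h2, one_mul, hval] at h1
      exact h1
    · intro j'' _ hj''
      have h2 : (e i j s + e i' j' s' : Wk C k) i j'' s = 0 := by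
        change (e i j s : Wk C k) i j'' s + (e i' j' s' : Wk C k) i j'' s = 0
        rw [h3, add_zero]
        simp [e, hj'']
      rw [h2, zero_mul]
    · intro h2
      exact absurd (Finset.mem_univ _) h2
  -- (C)
  have hC : ∀ i j j' s, G (e i j (s + 1)) i j' s = G (e i j' (s + 1)) i j s := by
    intro i j j' s
    by_cases hjj : j = j'
    · rw [hjj]
    have h1 := hFc (e i j s + e i j' s) i s
    have h2 : ∀ j'', (e i j s + e i j' s : Wk C k) i j'' s * F (e i j s + e i j' s) i j'' (s + 1) =
        (if j'' = j then F (e i j s + e i j' s) i j (s + 1) else 0) +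
        (if j'' = j' then F (e i j s + e i j' s) i j' (s + 1) else 0) := by
      intro j''
      change ((e i j s : Wk C k) i j'' s + (e i j' s : Wk C k) i j'' s) * _ = _
      by_cases h3 : j'' = j
      · rw [h3, if_pos rfl, if_neg hjj]
        simp [e, hjj]
      · rw [if_neg h3]
        by_cases h4 : j'' = j'
        · rw [h4, if_pos rfl]
          have h5 : ¬ j' = j := fun h => hjj h.symm
          simp [e, h5]
        · rw [if_neg h4]
          simp [e, h3, h4]
    rw [Finset.sum_congr rfl (fun j'' _ => h2 j''), Finset.sum_add_distrib] at h1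
    simp only [Finset.sum_ite_eq', Finset.mem_univ, if_true] at h1
    have h6 := z2_eq_of_add h1
    rw [hval] at h6
    rw [h6, add_comm (e i j s) (e i j' s), hval]
  obtain ⟨S, hS⟩ : ∃ S : C → Sym2 (Fin k) → ZMod 2, ∀ i j j', S i s(j, j') = G (e i j 1) i j' 0 :=
    ⟨fun i => Sym2.lift ⟨fun j j' => G (e i j 1) i j' 0, fun j j' => by
      have := hC i j j' 0
      rw [zero_add] at this
      exact this⟩, fun i j j' => rfl⟩
  have hS2 : ∀ i j j' s, G (e i j (s + 1)) i j' s = S i s(j, j') := by
    intro i j j' s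
    fin_cases s
    · exact (hS i j j').symm
    · rw [Sym2.eq_swap, hS, hgs]
      rfl
  refine ⟨S, ?_⟩
  funext x i j s
  rw [hc x, hGF, hGe]
  have hs : s = s + 1 + 1 := (fin2_add s).symm
  have h1 : F 0 i j s = S i s(j, j) := by
    conv_lhs => rw [hs]
    rw [hA, hS2]
  rw [h1]
  unfold Phi ip
  congr 1
  rw [Finset.sum_eq_single i]
  · refine Finset.sum_congr rfl fun j' _ => ?_
    rw [Finset.sum_eq_single (s + 1)]
    · have h2 : G (e i j s) i j' (s + 1) = S i s(j, j') := by
        have := hS2 i j j' (s + 1)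
        rw [fin2_add] at this
        exact this
      rw [h2, mul_comm]
    · intro s' _ hs'
      have h2 := hB i j (s + 1) i j' s' (Or.inr hs')
      rw [fin2_add] at h2
      rw [h2, mul_zero]
    · intro h2
      exact absurd (Finset.mem_univ _) h2
  · intro i' _ hi'
    refine Finset.sum_eq_zero fun j' _ => Finset.sum_eq_zero fun s' _ => ?_
    have h2 := hB i j (s + 1) i' j' s' (Or.inl hi')
    rw [fin2_add] at h2
    rw [h2, mul_zero]
  · intro h2
    exact absurd (Finset.mem_univ _) h2

end

theorem t_GN : S_GN := by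
  intro C _ k r a ha
  have h1 : {c : Fin r → Wk C k | Orth a c} = Set.range (Phi a) := by
    ext c
    constructor
    · intro h
      exact orth_exists a c ha h
    · rintro ⟨S, rfl⟩
      exact Phi_orth a S
  rw [h1, ← Nat.card_coe_set_eq, Nat.card_range_of_injective (Phi_inj a ha), Nat.card_fun, Nat.card_fun]
  rw [Nat.card_zmod, Nat.card_eq_fintype_card, Nat.card_eq_fintype_card, Sym2.card, Fintype.card_fin,
    Nat.choose_two_right, Nat.add_sub_cancel, ← pow_mul]
  congr 1
  rw [mul_comm (k + 1) k, mul_comm]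

end Pool.Agent.D0H21.OD
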