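import Pool.Agent.D0H99.OD.Stm5
import Pool.Agent.D0H65.OD.Ng

/-! Project OD (helper99), part 5, module NG2 (adapted from `Pool.Agent.D0H65.OD.Ng`). -/

set_option autoImplicit false

namespace Pool.Agent.D0H21.OD

open Finset Module
open Pool.Agent.D0H99.RM (V X sy cst)
open Pool.Agent.D0H99.OD
open Pool.Agent.D0H65.OD (Bf Bf_apply lemA lemB fl fl_inj fl_sum card_J)

section main

variable {C : Type} [Fintype C] {k r : ℕ}

theorem key2 (s : ℕ) (a c : Fin r → Wk C k) (ho : Orth2 s a c)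
    (hli : ∀ i, LinearIndependent (ZMod 2) fun (j : Fin k) (x : Fin r) => a x i j)
    (hns : ¬ Srj s a) :
    ((fun x => (a x, c x)) '' {x : Fin r | s ≤ (x : ℕ)}).ncard < 4 ^ (k * Fintype.card C) := by
  classical
  by_cases hL : ∃ x₀ : Fin r, s ≤ (x₀ : ℕ)
  swap
  · have h1 : ((fun x => (a x, c x)) '' {x : Fin r | s ≤ (x : ℕ)}) = ∅ := by
      rw [Set.image_eq_empty, Set.eq_empty_iff_forall_notMem]
      intro x hx
      exact hL ⟨x, hx⟩
    rw [h1, Set.ncard_empty]
    positivity
  obtain ⟨x₀, hx₀⟩ := hL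
  by_contra hcon
  push Not at hcon
  have hN : (4 : ℕ) ^ (k * Fintype.card C) = 2 ^ Fintype.card (C × Fin k × Fin 2) := by
    rw [card_J, show (4 : ℕ) = 2 ^ 2 from rfl, ← pow_mul]
  rw [hN] at hcon
  let g : Fin r → ((C × Fin k × Fin 2 → ZMod 2) × (C × Fin k × Fin 2 → ZMod 2)) :=
    fun x => (fl (a x) - fl (a x₀), fl (c x) - fl (c x₀))
  let U : Submodule (ZMod 2) ((C × Fin k × Fin 2 → ZMod 2) × (C × Fin k × Fin 2 → ZMod 2)) :=
    Submodule.span (ZMod 2) (g '' {x : Fin r | s ≤ (x : ℕ)})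
  have hadd : ∀ t : ZMod 2, t + t = 0 := by decide
  have hQ0 : ∀ x y : Fin r, s ≤ (x : ℕ) →
      ∑ p, (fl (a x) p - fl (a y) p) * (fl (c x) p - fl (c y) p) = 0 := by
    intro x y hx
    rw [fl_sum]
    exact ho.2 x y hx
  have hQ : ∀ x y : Fin r, s ≤ (y : ℕ) →
      ∑ p, (fl (a x) p - fl (a y) p) * (fl (c x) p - fl (c y) p) = 0 := by
    intro x y hy
    rw [← hQ0 y x hy]
    refine Finset.sum_congr rfl fun p _ => ?_
    ring
  have hgg : ∀ x y : Fin r, s ≤ (y : ℕ) → Bf _ (g x) (g y) = 0 := by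
    intro x y hy
    rw [Bf_apply]
    have h1 := hQ x y hy
    have h2 := hQ x x₀ hx₀
    have h3 := hQ y x₀ hx₀
    have h4 : ∑ p, ((g x).1 p * (g y).2 p + (g y).1 p * (g x).2 p) =
        ∑ p, (fl (a x) p - fl (a x₀) p) * (fl (c x) p - fl (c x₀) p) +
        ∑ p, (fl (a y) p - fl (a x₀) p) * (fl (c y) p - fl (c x₀) p) -
        ∑ p, (fl (a x) p - fl (a y) p) * (fl (c x) p - fl (c y) p) := by
      rw [← Finset.sum_add_distrib, ← Finset.sum_sub_distrib]
      refine Finset.sum_congr rfl fun p _ => ?_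
      change (fl (a x) p - fl (a x₀) p) * (fl (c y) p - fl (c x₀) p) +
        (fl (a y) p - fl (a x₀) p) * (fl (c x) p - fl (c x₀) p) = _
      ring
    rw [h4, h1, h2, h3]
    simp
  have hgU : ∀ x, ∀ y ∈ U, Bf _ (g x) y = 0 := by
      intro x y hy
      refine Submodule.span_induction ?_ ?_ ?_ ?_ hy
      · rintro _ ⟨y', hy', rfl⟩
        exact hgg x y' hy'
      · exact map_zero _
      · intro u w _ _ hu hw
        rw [map_add, hu, hw, add_zero]
      · intro t u _ hu
        rw [map_smul, hu, smul_zero]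
  have hiso : ∀ x ∈ U, ∀ y ∈ U, Bf _ x y = 0 := by
    intro x hx y hy
    refine Submodule.span_induction ?_ ?_ ?_ ?_ hx
    · rintro _ ⟨x', -, rfl⟩
      exact hgU x' y hy
    · rw [map_zero]; rfl
    · intro u w _ _ hu hw
      rw [map_add, LinearMap.add_apply, hu, hw, add_zero]
    · intro t u _ hu
      rw [map_smul, LinearMap.smul_apply, hu, smul_zero]
  obtain ⟨hA1, hA2⟩ := lemA U hiso
  -- the range of g has the same number of elements
  have hcard : (g '' {x : Fin r | s ≤ (x : ℕ)}).ncard =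
      ((fun x => (a x, c x)) '' {x : Fin r | s ≤ (x : ℕ)}).ncard := by
    let ψ : Wk C k × Wk C k → ((C × Fin k × Fin 2 → ZMod 2) × (C × Fin k × Fin 2 → ZMod 2)) :=
      fun w => (fl w.1 - fl (a x₀), fl w.2 - fl (c x₀))
    have hψ : Function.Injective ψ := by
      intro w w' h
      have e1 := congrArg Prod.fst h
      have e2 := congrArg Prod.snd h
      exact Prod.ext (fl_inj (sub_left_injective e1)) (fl_inj (sub_left_injective e2))
    have h1 : g '' {x : Fin r | s ≤ (x : ℕ)} =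
        ψ '' ((fun x => (a x, c x)) '' {x : Fin r | s ≤ (x : ℕ)}) := by
      rw [← Set.image_comp]
      rfl
    rw [h1, Set.ncard_image_of_injective _ hψ]
  have hsub : g '' {x : Fin r | s ≤ (x : ℕ)} ⊆ (U : Set ((C × Fin k × Fin 2 → ZMod 2) × (C × Fin k × Fin 2 → ZMod 2))) := Submodule.subset_span
  have hUc : (U : Set ((C × Fin k × Fin 2 → ZMod 2) × (C × Fin k × Fin 2 → ZMod 2))).ncard = Nat.card U := by
    rw [← Nat.card_coe_set_eq]
    rfl
  have heq : g '' {x : Fin r | s ≤ (x : ℕ)} = (U : Set ((C × Fin k × Fin 2 → ZMod 2) × (C × Fin k × Fin 2 → ZMod 2))) := by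
    apply Set.eq_of_subset_of_ncard_le hsub _ (Set.toFinite _)
    rw [hUc, hcard]
    exact hA1.trans hcon
  have hUeq : Nat.card U = 2 ^ Fintype.card (C × Fin k × Fin 2) := by
    apply le_antisymm hA1
    rw [← hUc, ← heq, hcard]
    exact hcon
  have hmem : ∀ z ∈ U, ∃ x : Fin r, s ≤ (x : ℕ) ∧ g x = z := by
    intro z hz
    have h1 : z ∈ g '' {x : Fin r | s ≤ (x : ℕ)} := by
      rw [heq]
      exact hz
    exact h1
  -- the small indices
  have hall : ∀ x, ∃ y : Fin r, s ≤ (y : ℕ) ∧ a x = a y := by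
    intro x
    obtain ⟨y, hy, he⟩ := hmem (g x) (hA2 hUeq (g x) (hgU x))
    have e1 : fl (a y) - fl (a x₀) = fl (a x) - fl (a x₀) := congrArg Prod.fst he
    exact ⟨y, hy, (fl_inj (sub_left_injective e1)).symm⟩
  -- the projection is proper
  have hP : U.map (LinearMap.fst (ZMod 2) (C × Fin k × Fin 2 → ZMod 2)
      (C × Fin k × Fin 2 → ZMod 2)) ≠ ⊤ := by
    intro h
    apply hns
    intro w
    have h1 : fl w - fl (a x₀) ∈ U.map (LinearMap.fst (ZMod 2) (C × Fin k × Fin 2 → ZMod 2)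
      (C × Fin k × Fin 2 → ZMod 2)) := by
      rw [h]; exact Submodule.mem_top
    obtain ⟨z, hz, hz2⟩ := Submodule.mem_map.mp h1
    obtain ⟨x, hx, rfl⟩ := hmem z hz
    exact ⟨x, hx, fl_inj (sub_left_injective hz2)⟩
  obtain ⟨t, ht0, ht⟩ := lemB _ hP
  have htU : ∀ τ : C × Fin k × Fin 2 → ZMod 2,
      (∀ x : Fin r, s ≤ (x : ℕ) → ∑ p, (g x).1 p * τ p = 0) →
      ((0 : C × Fin k × Fin 2 → ZMod 2), τ) ∈ U := by
    intro τ hτ
    apply hA2 hUeq
    intro z hz
    obtain ⟨x, hx, rfl⟩ := hmem z hz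
    rw [Bf_apply]
    rw [← hτ x hx]
    refine Finset.sum_congr rfl fun p _ => ?_
    simp
  -- the shift
  have hshift : ∀ τ : C × Fin k × Fin 2 → ZMod 2,
      ((0 : C × Fin k × Fin 2 → ZMod 2), τ) ∈ U → ∀ x : Fin r, s ≤ (x : ℕ) → ∀ i b,
      ∑ j, a x i j b * τ (i, j, b + 1) = 0 := by
    intro τ hτ x hx i b
    obtain ⟨y, hyL, hy⟩ := hmem _ (U.add_mem (Submodule.subset_span ⟨x, hx, rfl⟩ : g x ∈ U) hτ)
    have e1 : fl (a y) - fl (a x₀) = fl (a x) - fl (a x₀) := by
      have := congrArg Prod.fst hy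
      simpa [g] using this
    have e2 : fl (c y) - fl (c x₀) = fl (c x) - fl (c x₀) + τ := congrArg Prod.snd hy
    have e3 : a y = a x := fl_inj (sub_left_injective e1)
    have e4 : ∀ j, c y i j (b + 1) = c x i j (b + 1) + τ (i, j, b + 1) := by
      intro j
      have h1 := congrFun e2 (i, j, b + 1)
      simp only [Pi.sub_apply, Pi.add_apply, fl] at h1
      linear_combination h1
    have h1 := ho.1 x hx i b
    have h2 := ho.1 y hyL i b
    rw [e3] at h2
    simp only [e4, mul_add, Finset.sum_add_distrib] at h2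
    rw [h1, zero_add] at h2
    exact h2
  have h0 := hshift t (htU t fun x hx => ht _ (Submodule.mem_map.mpr
    ⟨g x, Submodule.subset_span ⟨x, hx, rfl⟩, rfl⟩))
  obtain ⟨⟨i, j₀, s'⟩, hne⟩ := Function.ne_iff.mp ht0
  have hss : ∀ b : Fin 2, b + 1 + 1 = b := by decide
  have h1 : ∀ x : Fin r, s ≤ (x : ℕ) → ∑ j, a x i j (s' + 1) * t (i, j, s') = 0 := by
    intro x hx
    have := h0 x hx i (s' + 1)
    rw [hss] at this
    exact this
  let t' : C × Fin k × Fin 2 → ZMod 2 := fun p =>
    if p.1 = i ∧ p.2.2 = s' + 1 then t (i, p.2.1, s') else 0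
  have ht'a : ∀ w : C × Fin k × Fin 2 → ZMod 2, ∑ p, w p * t' p =
      ∑ j, w (i, j, s' + 1) * t (i, j, s') := by
    intro w
    rw [fl_sum, Finset.sum_eq_single i]
    · refine Finset.sum_congr rfl fun j _ => ?_
      rw [Finset.sum_eq_single (s' + 1)]
      · simp [t']
      · intro s _ hs
        simp [t', hs]
      · intro h
        exact absurd (Finset.mem_univ _) h
    · intro i' _ hi
      apply Finset.sum_eq_zero
      intro j _
      apply Finset.sum_eq_zero
      intro s _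
      simp [t', hi]
    · intro h
      exact absurd (Finset.mem_univ _) h
  have ht' : ((0 : C × Fin k × Fin 2 → ZMod 2), t') ∈ U := by
    apply htU
    intro x hx
    rw [ht'a]
    change ∑ j, (a x i j (s' + 1) - a x₀ i j (s' + 1)) * t (i, j, s') = 0
    simp only [sub_mul, Finset.sum_sub_distrib]
    rw [h1 x hx, h1 x₀ hx₀, sub_zero]
  have h2 : ∀ x : Fin r, s ≤ (x : ℕ) → ∑ j, a x i j s' * t (i, j, s') = 0 := by
    intro x hx
    have h3 := hshift t' ht' x hx i s'
    have h4 : ∀ j, t' (i, j, s' + 1) = t (i, j, s') := by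
      intro j
      simp [t']
    simp only [h4] at h3
    exact h3
  have h3 : ∀ x (b : Fin 2), ∑ j, a x i j b * t (i, j, s') = 0 := by
    intro x b
    have h4 : ∀ u v : Fin 2, u = v ∨ u = v + 1 := by decide
    obtain ⟨y, hy, he⟩ := hall x
    rw [he]
    rcases h4 b s' with rfl | rfl
    · exact h2 y hy
    · exact h1 y hy
  have h4 := Fintype.linearIndependent_iff.mp (hli i) (fun j => t (i, j, s')) (by
    funext x b
    rw [Finset.sum_apply, Finset.sum_apply]
    refine Eq.trans ?_ (h3 x b)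
    refine Finset.sum_congr rfl fun j _ => ?_
    simp only [Pi.smul_apply, smul_eq_mul]
    ring)
  exact hne (h4 j₀)

theorem prod_split (s r A B : ℕ) (hs : s ≤ r) :
    ∏ x : Fin r, (if s ≤ (x : ℕ) then A else B) = A ^ (r - s) * B ^ s := by
  obtain ⟨m, rfl⟩ := Nat.exists_eq_add_of_le hs
  rw [Fin.prod_univ_eq_prod_range (fun i => if s ≤ i then A else B) (s + m), Finset.prod_range_add,
    Nat.add_sub_cancel_left]
  have h1 : ∏ i ∈ range s, (if s ≤ i then A else B) = B ^ s := by
    rw [Finset.prod_congr rfl (fun i hi => if_neg (not_le.2 (Finset.mem_range.1 hi))),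
      Finset.prod_const, Finset.card_range]
  have h2 : ∏ i ∈ range m, (if s ≤ s + i then A else B) = A ^ m := by
    rw [Finset.prod_congr rfl (fun i _ => if_pos (Nat.le_add_right s i)),
      Finset.prod_const, Finset.card_range]
  rw [h1, h2, mul_comm]

theorem t_NG2 : S_NG2 := by
  intro C _ k r s hs
  classical
  set N : ℕ := 4 ^ (k * Fintype.card C) with hN
  have hW : Fintype.card (Wk C k) = N := by
    rw [hN, Fintype.card_fun, Fintype.card_fun, Fintype.card_fun, ZMod.card, Fintype.card_fin,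
      Fintype.card_fin, pow_mul]
    norm_num
  have hWW : Fintype.card (Wk C k × Wk C k) = 16 ^ (k * Fintype.card C) := by
    rw [Fintype.card_prod, hW, hN, ← mul_pow]
    norm_num
  let T := {v : (Fin r → Wk C k) × (Fin r → Wk C k) | Orth2 s v.1 v.2 ∧
    (∀ i, LinearIndependent (ZMod 2) fun (j : Fin k) (x : Fin r) => v.1 x i j) ∧
    ¬ Srj s v.1}
  change T.ncard ≤ 2 ^ (16 ^ (k * Fintype.card C)) * (N - 1) ^ (r - s) *
    16 ^ (k * Fintype.card C * s)
  let 𝒮 : Finset (Finset (Wk C k × Wk C k)) := Finset.univ.filter fun I => I.card ≤ N - 1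
  let φ : (Fin r → Wk C k) × (Fin r → Wk C k) → (Fin r → Wk C k × Wk C k) :=
    fun v x => (v.1 x, v.2 x)
  have hφ : Function.Injective φ := by
    intro v w h
    apply Prod.ext
    · funext x
      exact congrArg Prod.fst (congrFun h x)
    · funext x
      exact congrArg Prod.snd (congrFun h x)
  have h1 : (φ '' T) ⊆ ((𝒮.biUnion fun I => Fintype.piFinset fun x : Fin r =>
      if s ≤ (x : ℕ) then I else Finset.univ : Finset _) :
      Set (Fin r → Wk C k × Wk C k)) := by
    rintro _ ⟨v, ⟨h1, h2, h3⟩, rfl⟩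
    have h4 := key2 s v.1 v.2 h1 h2 h3
    rw [Finset.mem_coe, Finset.mem_biUnion]
    refine ⟨(Finset.univ.filter fun x : Fin r => s ≤ (x : ℕ)).image (φ v), ?_, ?_⟩
    · rw [Finset.mem_filter]
      refine ⟨Finset.mem_univ _, ?_⟩
      have h5 : ((Finset.univ.filter fun x : Fin r => s ≤ (x : ℕ)).image (φ v)).card =
          ((fun x => (v.1 x, v.2 x)) '' {x : Fin r | s ≤ (x : ℕ)}).ncard := by
        rw [← Set.ncard_coe_finset, Finset.coe_image, Finset.coe_filter]
        simp only [Finset.mem_univ, true_and]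
        rfl
      rw [h5]
      exact Nat.le_sub_one_of_lt h4
    · rw [Fintype.mem_piFinset]
      intro x
      by_cases hx : s ≤ (x : ℕ)
      · rw [if_pos hx]
        exact Finset.mem_image_of_mem _ (Finset.mem_filter.2 ⟨Finset.mem_univ _, hx⟩)
      · rw [if_neg hx]
        exact Finset.mem_univ _
  calc T.ncard = (φ '' T).ncard := (Set.ncard_image_of_injective _ hφ).symm
    _ ≤ ((𝒮.biUnion fun I => Fintype.piFinset fun x : Fin r =>
      if s ≤ (x : ℕ) then I else Finset.univ : Finset _) :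
      Set (Fin r → Wk C k × Wk C k)).ncard := Set.ncard_le_ncard h1 (Finset.finite_toSet _)
    _ = (𝒮.biUnion fun I => Fintype.piFinset fun x : Fin r =>
        if s ≤ (x : ℕ) then I else Finset.univ).card := Set.ncard_coe_finset _
    _ ≤ ∑ I ∈ 𝒮, (Fintype.piFinset fun x : Fin r =>
        if s ≤ (x : ℕ) then I else Finset.univ).card := Finset.card_biUnion_le
    _ ≤ ∑ I ∈ 𝒮, (N - 1) ^ (r - s) * 16 ^ (k * Fintype.card C * s) := by
        refine Finset.sum_le_sum fun I hI => ?_
        rw [Fintype.card_piFinset]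
        have h6 : ∀ x : Fin r, (if s ≤ (x : ℕ) then I else Finset.univ).card ≤
            if s ≤ (x : ℕ) then N - 1 else 16 ^ (k * Fintype.card C) := by
          intro x
          by_cases hx : s ≤ (x : ℕ)
          · rw [if_pos hx, if_pos hx]
            exact (Finset.mem_filter.mp hI).2
          · rw [if_neg hx, if_neg hx, Finset.card_univ, hWW]
        refine (Finset.prod_le_prod (fun _ _ => Nat.zero_le _) (fun x _ => h6 x)).trans ?_
        rw [prod_split s r _ _ hs, pow_mul (16 : ℕ) (k * Fintype.card C) s]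
    _ = 𝒮.card * ((N - 1) ^ (r - s) * 16 ^ (k * Fintype.card C * s)) := by
        rw [Finset.sum_const, smul_eq_mul]
    _ ≤ 2 ^ (16 ^ (k * Fintype.card C)) * ((N - 1) ^ (r - s) * 16 ^ (k * Fintype.card C * s)) := by
        apply Nat.mul_le_mul_right
        refine (Finset.card_le_univ _).trans (le_of_eq ?_)
        rw [Fintype.card_finset, hWW]
    _ = _ := (mul_assoc _ _ _).symm

end main

end Pool.Agent.D0H21.OD
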