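import Pool.Agent.D0H99.OD.Stm5
import Pool.Agent.D0H52.OD.Per

/-! Project OD (helper99), part 5, module SG2 (adapted from `Pool.Agent.D0H65.OD.Sg`). -/

set_option autoImplicit false

namespace Pool.Agent.D0H21.OD

open Finset Module
open Pool.Agent.D0H99.RM (V X sy cst)
open Pool.Agent.D0H99.OD

theorem t_SG2 : S_SG2 := by
  intro k r s δ κ lam B π a x t hx ha
  classical
  set φ : (Fin r → V 2 2) → (Fin r → V 2 2) :=
    fun p => (Pool.Agent.D0H52.RM.flip x t (B, p)).2 with hφ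
  have hφφ : ∀ p, φ (φ p) = p := by
    intro p
    funext y u
    change (p y u + if y = x ∧ u = t then 1 else 0) + (if y = x ∧ u = t then 1 else 0) = p y u
    rw [add_assoc, CharTwo.add_self_eq_zero, add_zero]
  have hpr : ∀ p, ∑ y, ∑ u, φ p y u = ∑ y, ∑ u, p y u + 1 := fun p =>
    Pool.Agent.D0H52.RM.pr_flip x t (B, p)
  have hsol : ∀ p j, PSol δ κ lam (sy B) (φ p) (a j) ↔ PSol δ κ lam (sy B) p (a j) := fun p j =>
    Pool.Agent.D0H52.OD.psol_flip δ κ lam x t (B, p) (a j) (ha j)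
  have hps : ∀ p, p ∈ PS s π → φ p ∈ PS s π := by
    intro p hp y hy
    funext u
    change (p y u + if y = x ∧ u = t then 1 else 0) = π y u
    have hyx : ¬ (y = x ∧ u = t) := by
      rintro ⟨rfl, -⟩
      omega
    rw [if_neg hyx, add_zero, hp y hy]
  have h1 : ∀ c : ZMod 2, c + 1 ≠ 0 ↔ c = 0 := by decide
  have h2 : ∀ c : ZMod 2, c + 1 = 0 ↔ c ≠ 0 := by decide
  have himg : φ '' {p : Fin r → V 2 2 | ∑ y, ∑ t, p y t = 0 ∧ p ∈ PS s π ∧
      ∀ j, PSol δ κ lam (sy B) p (a j)} =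
      {p : Fin r → V 2 2 | ∑ y, ∑ t, p y t ≠ 0 ∧ p ∈ PS s π ∧
      ∀ j, PSol δ κ lam (sy B) p (a j)} := by
    ext p
    constructor
    · rintro ⟨p', ⟨e1, e3, e2⟩, rfl⟩
      refine ⟨?_, hps p' e3, fun j => (hsol p' j).mpr (e2 j)⟩
      rw [hpr]
      exact (h1 _).mpr e1
    · rintro ⟨e1, e3, e2⟩
      refine ⟨φ p, ⟨?_, hps p e3, fun j => (hsol p j).mpr (e2 j)⟩, hφφ p⟩
      rw [hpr]
      exact (h2 _).mpr e1
  rw [← himg, Set.ncard_image_of_injective _ (Function.LeftInverse.injective hφφ)]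

end Pool.Agent.D0H21.OD
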